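import Pool.Agent.H53.PK.D.All
import Pool.Agent.H37.PK.Main

/-!
# A new lower bound for the pancake number: `f(n) ≥ (43/2) ⌊n/20⌋`

In particular `f(n) ≥ 43n/40` whenever `20 ∣ n`.
-/

open Pool.Agent.H53.PK

namespace Pool.Agent.Results.MP_6ed97a_co.LowerBound

theorem result (n : ℕ) : 43 * (n / 20) ≤ 2 * f n := by
  have h := Pool.Agent.H37.PK.targetM5 20 3 tau (by norm_num) (by decide) (by decide) (by decide)
    (by decide) local20 (n / 20) (n % 20)
  have e : 20 * (n / 20) + n % 20 = n := Nat.div_add_mod n 20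
  rw [e] at h
  omega

end Pool.Agent.Results.MP_6ed97a_co.LowerBound
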