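import Pool.Agent.H31.PN.Asm
import Pool.Agent.H31.PN.MX
import Pool.Agent.H10.PN.LI
import Pool.Agent.H53.PK.D.All
import Pool.Agent.H37.PK.Main

/-!
# Almost all stacks of `n` pancakes need `n + o(n)` flips

For every `η > 0` the stacks of `n` pancakes whose distance to the sorted stack differs from `n` by
more than `η n` form a fraction of at most `exp (- c n)` of all stacks, and the average distance is
`n` up to `η n`. Hence the maximum `f(n)` exceeds the average by at least `7n/100`, and the stacks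
with a distance of at least `f(n) - 7n/100` are exponentially rare.
-/

open scoped BigOperators
open Pool.Agent.H53.PK

namespace Pool.Agent.Results.MP_6ed97a_co.TypicalStacks

/-- the stack of a permutation: entry number `i` from the top is `σ i + 1` -/
def stackOf (n : ℕ) (σ : Equiv.Perm (Fin n)) : List ℕ := List.ofFn (fun i => (σ i : ℕ) + 1)

open Classical in
theorem result :
    (∀ η : ℝ, 0 < η → ∃ c : ℝ, 0 < c ∧ ∃ n0 : ℕ, ∀ n ≥ n0,
      (((Finset.univ : Finset (Equiv.Perm (Fin n))).filter
        (fun σ => η * n < |(d n (stackOf n σ) : ℝ) - n|)).card : ℝ)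
        ≤ Real.exp (-c * n) * n.factorial ∧
      |(∑ σ : Equiv.Perm (Fin n), (d n (stackOf n σ) : ℝ)) / n.factorial - n| ≤ η * n) ∧
    (∃ c : ℝ, 0 < c ∧ ∃ n0 : ℕ, ∀ n ≥ n0,
      (((Finset.univ : Finset (Equiv.Perm (Fin n))).filter
        (fun σ => (f n : ℝ) - 7 / 100 * n ≤ (d n (stackOf n σ) : ℝ))).card : ℝ)
        ≤ Real.exp (-c * n) * n.factorial ∧
      (∑ σ : Equiv.Perm (Fin n), (d n (stackOf n σ) : ℝ)) / n.factorial
        ≤ (f n : ℝ) - 7 / 100 * n) := by
  have hFI : Pool.Agent.H31.PN.T_FI := Pool.Agent.H31.PN.asm Pool.Agent.H10.PN.LI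
  have hf : ∀ n : ℕ, 43 * (n / 20) ≤ 2 * f n := by
    intro n
    have h := Pool.Agent.H37.PK.targetM5 20 3 tau (by norm_num) (by decide) (by decide) (by decide)
      (by decide) local20 (n / 20) (n % 20)
    have e : 20 * (n / 20) + n % 20 = n := Nat.div_add_mod n 20
    rw [e] at h
    omega
  exact ⟨hFI, Pool.Agent.H31.PN.MX hFI hf⟩

end Pool.Agent.Results.MP_6ed97a_co.TypicalStacks
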