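import Pool.Agent.H42.PAN.Asm

/-!
# A new upper bound for the pancake number: `f(n) ≤ (47/30 + ε) n + C`

For every `ε > 0` there is a constant `C` with `f(n) ≤ (47/30 + ε) n + C` for all `n`, that is
`limsup f(n)/n ≤ 47/30 = 1.5666…`.
-/

open Pool.Agent.H53.PK

namespace Pool.Agent.Results.MP_6ed97a_co.UpperBound4730

theorem result : ∀ ε : ℝ, 0 < ε → ∃ C : ℝ, ∀ n : ℕ, (f n : ℝ) ≤ (47 / 30 + ε) * n + C :=
  Pool.Agent.H42.PAN.c_FIN

end Pool.Agent.Results.MP_6ed97a_co.UpperBound4730
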